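import Pool.Agent.Helper91_BS.Code

/-! # BS squad: module AT (iterated shifts of good environments) -/

set_option autoImplicit false

namespace Pool.Agent.BS.H91

open Function Filter MeasureTheory Topology
open Pool.Agent.BS

variable {D V : Type}

theorem env_ext {E E' : Env D V} (h1 : E.c = E'.c) (h2 : E.P = E'.P) (h3 : E.F = E'.F)
    (h4 : E.B = E'.B) (h5 : E.r = E'.r) : E = E' := by
  cases E
  cases E'
  simp only [Env.mk.injEq]
  exact ⟨h1, h2, h3, h4, h5⟩

theorem atE_c (T : TMap D V) (E : Env D V) (i : ℤ) : (T.atE E i).c = E.c := rfl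
theorem atE_B (T : TMap D V) (E : Env D V) (i : ℤ) : (T.atE E i).B = E.B := rfl
theorem atE_r (T : TMap D V) (E : Env D V) (i : ℤ) : (T.atE E i).r = T.st E.c E.r i := rfl

theorem mem_atE_P (T : TMap D V) (E : Env D V) (i : ℤ) (d : D) :
    d ∈ (T.atE E i).P ↔ (d ∈ E.P ∧ ∀ j, T.st E.c E.r j ≠ d) ∨ ∃ j ≤ i, T.st E.c E.r j = d := by
  change d ∈ (E.P \ T.strand E) ∪ {d | ∃ j ≤ i, T.st E.c E.r j = d} ↔ _
  rw [Set.mem_union, Set.mem_sdiff, Set.mem_ofPred_eq]
  unfold TMap.strand
  rw [Set.mem_range, not_exists]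

theorem mem_atE_F (T : TMap D V) (E : Env D V) (i : ℤ) (d : D) :
    d ∈ (T.atE E i).F ↔ (d ∈ E.F ∧ ∀ j, T.st E.c E.r j ≠ d) ∨ ∃ j ≥ i, T.st E.c E.r j = d := by
  change d ∈ (E.F \ T.strand E) ∪ {d | ∃ j ≥ i, T.st E.c E.r j = d} ↔ _
  rw [Set.mem_union, Set.mem_sdiff, Set.mem_ofPred_eq]
  unfold TMap.strand
  rw [Set.mem_range, not_exists]

theorem st_atE {T : TMap D V} {E : Env D V} (hE : T.State E.c E.r) (i j : ℤ) :
    T.st E.c (T.atE E i).r j = T.st E.c E.r (i + j) := by
  rw [atE_r, hE.st_st]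

theorem strand_atE {T : TMap D V} {E : Env D V} (hE : T.State E.c E.r) (i : ℤ) :
    T.strand (T.atE E i) = T.strand E := by
  ext d
  unfold TMap.strand
  rw [Set.mem_range, Set.mem_range]
  constructor
  · rintro ⟨j, hj⟩
    rw [atE_c, st_atE hE] at hj
    exact ⟨_, hj⟩
  · rintro ⟨j, hj⟩
    refine ⟨j - i, ?_⟩
    rw [atE_c, st_atE hE, add_sub_cancel]
    exact hj

theorem off_atE {T : TMap D V} {E : Env D V} (hE : T.State E.c E.r) (i : ℤ) (d : D) :
    (∀ j, T.st (T.atE E i).c (T.atE E i).r j ≠ d) ↔ ∀ j, T.st E.c E.r j ≠ d := by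
  constructor
  · intro h j
    have h2 := h (j - i)
    rw [atE_c, st_atE hE, add_sub_cancel] at h2
    exact h2
  · intro h j
    rw [atE_c, st_atE hE]
    exact h _

theorem atE_zero {T : TMap D V} {E : Env D V} (hE : T.Good E) : T.atE E 0 = E := by
  refine env_ext rfl ?_ ?_ rfl rfl
  · ext d
    rw [mem_atE_P]
    constructor
    · rintro (h | ⟨j, hj, rfl⟩)
      · exact h.1
      · exact (hE.memP j).mpr hj
    · intro h
      by_cases hd : ∃ j, T.st E.c E.r j = d
      · obtain ⟨j, rfl⟩ := hd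
        exact Or.inr ⟨j, (hE.memP j).mp h, rfl⟩
      · exact Or.inl ⟨h, fun j hj => hd ⟨j, hj⟩⟩
  · ext d
    rw [mem_atE_F]
    constructor
    · rintro (h | ⟨j, hj, rfl⟩)
      · exact h.1
      · exact (hE.memF j).mpr hj
    · intro h
      by_cases hd : ∃ j, T.st E.c E.r j = d
      · obtain ⟨j, rfl⟩ := hd
        exact Or.inr ⟨j, (hE.memF j).mp h, rfl⟩
      · exact Or.inl ⟨h, fun j hj => hd ⟨j, hj⟩⟩

theorem atE_atE {T : TMap D V} {E : Env D V} (hE : T.State E.c E.r) (i j : ℤ) :
    T.atE (T.atE E i) j = T.atE E (i + j) := by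
  refine env_ext rfl ?_ ?_ rfl ?_
  · ext d
    rw [mem_atE_P, off_atE hE, mem_atE_P T E i, mem_atE_P T E (i + j)]
    constructor
    · rintro (h | ⟨k, hk, h⟩)
      · rcases h with ⟨h1 | ⟨l, _, h1⟩, h2⟩
        · exact Or.inl h1
        · exact absurd h1 (h2 l)
      · rw [atE_c, st_atE hE] at h
        exact Or.inr ⟨i + k, by omega, h⟩
    · rintro (h | ⟨k, hk, h⟩)
      · left
        exact ⟨Or.inl h, h.2⟩
      · right
        refine ⟨k - i, by omega, ?_⟩
        rw [atE_c, st_atE hE, add_sub_cancel]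
        exact h
  · ext d
    rw [mem_atE_F, off_atE hE, mem_atE_F T E i, mem_atE_F T E (i + j)]
    constructor
    · rintro (h | ⟨k, hk, h⟩)
      · rcases h with ⟨h1 | ⟨l, _, h1⟩, h2⟩
        · exact Or.inl h1
        · exact absurd h1 (h2 l)
      · rw [atE_c, st_atE hE] at h
        exact Or.inr ⟨i + k, by omega, h⟩
    · rintro (h | ⟨k, hk, h⟩)
      · left
        exact ⟨Or.inl h, h.2⟩
      · right
        refine ⟨k - i, by omega, ?_⟩
        rw [atE_c, st_atE hE, add_sub_cancel]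
        exact h
  · rw [atE_r, atE_c, st_atE hE, atE_r]

theorem good_atE {T : TMap D V} {E : Env D V} (hE : T.Good E) (i : ℤ) : T.Good (T.atE E i) where
  state := hE.state.st i
  inj := by
    intro j k h
    rw [atE_c, st_atE hE.state, st_atE hE.state] at h
    have := hE.inj h
    omega
  memP := by
    intro k
    rw [atE_c, st_atE hE.state, mem_atE_P]
    constructor
    · rintro (h | ⟨j, hj, h⟩)
      · exact absurd rfl (h.2 (i + k))
      · have := hE.inj h
        omega
    · intro h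
      exact Or.inr ⟨i + k, by omega, rfl⟩
  memF := by
    intro k
    rw [atE_c, st_atE hE.state, mem_atE_F]
    constructor
    · rintro (h | ⟨j, hj, h⟩)
      · exact absurd rfl (h.2 (i + k))
      · have := hE.inj h
        omega
    · intro h
      exact Or.inr ⟨i + k, by omega, rfl⟩
  stP := by
    intro d hd
    rw [mem_atE_P] at hd
    rcases hd with hd | ⟨j, _, rfl⟩
    · exact hE.stP d hd.1
    · exact hE.state.st j
  stF := by
    intro d hd
    rw [mem_atE_F] at hd
    rcases hd with hd | ⟨j, _, rfl⟩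
    · exact hE.stF d hd.1
    · exact hE.state.st j

theorem good_mirror {T : TMap D V} {E : Env D V} (hE : T.Good E) : T.mirror.Good E.mir where
  state := hE.state
  inj := by
    intro i j h
    rw [TMap.mirror_st, TMap.mirror_st] at h
    have := hE.inj h
    omega
  memP := by
    intro i
    rw [TMap.mirror_st]
    have h := hE.memF (-i)
    change T.st E.c E.r (-i) ∈ E.F ↔ _
    rw [h]
    omega
  memF := by
    intro i
    rw [TMap.mirror_st]
    have h := hE.memP (-i)
    change T.st E.c E.r (-i) ∈ E.P ↔ _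
    rw [h]
    omega
  stP := hE.stF
  stF := hE.stP

theorem mir_mir (E : Env D V) : E.mir.mir = E := rfl

theorem shE_atE {T : TMap D V} {E : Env D V} (hE : T.Good E) (i : ℤ) :
    T.shE (T.atE E i) = T.atE E (i + 1) := by
  have hnx : T.nx E.c (T.st E.c E.r i) = T.st E.c E.r (i + 1) := (hE.state.st_succ i).symm
  refine env_ext rfl ?_ ?_ rfl ?_
  · ext d
    change d ∈ insert (T.nx E.c (T.st E.c E.r i)) (T.atE E i).P ↔ _
    rw [Set.mem_insert_iff, mem_atE_P, mem_atE_P, hnx]
    constructor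
    · rintro (h | h | ⟨j, hj, h⟩)
      · exact Or.inr ⟨i + 1, le_refl _, h.symm⟩
      · exact Or.inl h
      · exact Or.inr ⟨j, by omega, h⟩
    · rintro (h | ⟨j, hj, h⟩)
      · exact Or.inr (Or.inl h)
      · rcases eq_or_lt_of_le hj with h1 | h1
        · left
          rw [← h, h1]
        · exact Or.inr (Or.inr ⟨j, by omega, h⟩)
  · ext d
    change d ∈ (T.atE E i).F \ {T.st E.c E.r i} ↔ _
    rw [Set.mem_sdiff, Set.mem_singleton_iff, mem_atE_F, mem_atE_F]
    constructor
    · rintro ⟨h | ⟨j, hj, h⟩, h2⟩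
      · exact Or.inl h
      · right
        refine ⟨j, ?_, h⟩
        have : j ≠ i := by
          rintro rfl
          exact h2 h.symm
        omega
    · rintro (h | ⟨j, hj, h⟩)
      · exact ⟨Or.inl h, fun he => h.2 i he.symm⟩
      · refine ⟨Or.inr ⟨j, by omega, h⟩, ?_⟩
        intro he
        have := hE.inj (h.trans he)
        omega
  · exact hnx

theorem mirror_atE (T : TMap D V) (E : Env D V) (i : ℤ) :
    T.mirror.atE E.mir i = (T.atE E (-i)).mir := by
  refine env_ext rfl ?_ ?_ rfl ?_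
  · ext d
    rw [mem_atE_P]
    change (d ∈ E.F ∧ ∀ j, T.mirror.st E.c E.r j ≠ d) ∨ (∃ j ≤ i, T.mirror.st E.c E.r j = d) ↔
      d ∈ (T.atE E (-i)).F
    rw [mem_atE_F]
    constructor
    · rintro (h | ⟨j, hj, h⟩)
      · refine Or.inl ⟨h.1, fun j => ?_⟩
        have h2 := h.2 (-j)
        rw [TMap.mirror_st, neg_neg] at h2
        exact h2
      · rw [TMap.mirror_st] at h
        exact Or.inr ⟨-j, by omega, h⟩
    · rintro (h | ⟨j, hj, h⟩)
      · refine Or.inl ⟨h.1, fun j => ?_⟩
        rw [TMap.mirror_st]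
        exact h.2 _
      · refine Or.inr ⟨-j, by omega, ?_⟩
        rw [TMap.mirror_st, neg_neg]
        exact h
  · ext d
    rw [mem_atE_F]
    change (d ∈ E.P ∧ ∀ j, T.mirror.st E.c E.r j ≠ d) ∨ (∃ j ≥ i, T.mirror.st E.c E.r j = d) ↔
      d ∈ (T.atE E (-i)).P
    rw [mem_atE_P]
    constructor
    · rintro (h | ⟨j, hj, h⟩)
      · refine Or.inl ⟨h.1, fun j => ?_⟩
        have h2 := h.2 (-j)
        rw [TMap.mirror_st, neg_neg] at h2
        exact h2
      · rw [TMap.mirror_st] at h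
        exact Or.inr ⟨-j, by omega, h⟩
    · rintro (h | ⟨j, hj, h⟩)
      · refine Or.inl ⟨h.1, fun j => ?_⟩
        rw [TMap.mirror_st]
        exact h.2 _
      · refine Or.inr ⟨-j, by omega, ?_⟩
        rw [TMap.mirror_st, neg_neg]
        exact h
  · change T.mirror.st E.c E.r i = T.st E.c E.r (-i)
    rw [TMap.mirror_st]

theorem sb_enc {T : TMap D V} (θ : D → ℤ) {E : Env D V} (hE : T.Good E) :
    Sb (T.enc θ E) = T.enc θ (T.atE E (-1)) := by
  unfold Sb
  rw [mi_enc, sh_enc, mi_enc]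
  have h1 := shE_atE (good_mirror hE) 0
  rw [atE_zero (good_mirror hE), zero_add, mirror_atE] at h1
  rw [h1]
  rfl

theorem sh_enc_atE {T : TMap D V} (θ : D → ℤ) {E : Env D V} (hE : T.Good E) (i : ℤ) :
    Sh (T.enc θ (T.atE E i)) = T.enc θ (T.atE E (i + 1)) := by
  rw [sh_enc, shE_atE hE]

theorem sb_enc_atE {T : TMap D V} (θ : D → ℤ) {E : Env D V} (hE : T.Good E) (i : ℤ) :
    Sb (T.enc θ (T.atE E i)) = T.enc θ (T.atE E (i - 1)) := by
  rw [sb_enc θ (good_atE hE i), atE_atE hE.state, sub_eq_add_neg]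

/-- module AT -/
theorem at_ : AtStmt := by
  intro D V T θ E hE
  refine ⟨atE_zero hE, atE_atE hE.state, good_atE hE, good_mirror hE, ?_, ?_, ?_, ?_⟩
  · intro i
    funext j
    exact st_atE hE.state i j
  · intro i
    constructor
    · ext d
      rw [Set.mem_sdiff, Set.mem_sdiff, strand_atE hE.state]
      constructor
      · rintro ⟨h1, h2⟩
        refine ⟨?_, h2⟩
        rw [mem_atE_P] at h1
        rcases h1 with h1 | ⟨j, _, h1⟩
        · exact h1.1
        · exact absurd ⟨j, h1⟩ h2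
      · rintro ⟨h1, h2⟩
        refine ⟨?_, h2⟩
        rw [mem_atE_P]
        exact Or.inl ⟨h1, fun j hj => h2 ⟨j, hj⟩⟩
    · ext d
      rw [Set.mem_sdiff, Set.mem_sdiff, strand_atE hE.state]
      constructor
      · rintro ⟨h1, h2⟩
        refine ⟨?_, h2⟩
        rw [mem_atE_F] at h1
        rcases h1 with h1 | ⟨j, _, h1⟩
        · exact h1.1
        · exact absurd ⟨j, h1⟩ h2
      · rintro ⟨h1, h2⟩
        refine ⟨?_, h2⟩
        rw [mem_atE_F]
        exact Or.inl ⟨h1, fun j hj => h2 ⟨j, hj⟩⟩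
  · intro n
    induction n with
    | zero =>
      rw [Function.iterate_zero, id, Nat.cast_zero, atE_zero hE]
    | succ n ih =>
      rw [Function.iterate_succ_apply', ih, sh_enc_atE θ hE]
      congr 2
  · intro n
    induction n with
    | zero =>
      rw [Function.iterate_zero, id, Nat.cast_zero, neg_zero, atE_zero hE]
    | succ n ih =>
      rw [Function.iterate_succ_apply', ih, sb_enc_atE θ hE]
      congr 2
      push_cast
      ring

end Pool.Agent.BS.H91
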