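import Pool.Agent.Helper47_BS.Stmts

/-! # BS squad: module CODE (the maps on codes, on representations) -/

set_option autoImplicit false

namespace Pool.Agent.BS.H91

open Function Filter MeasureTheory Topology
open Pool.Agent.BS

variable {D V : Type}

theorem enc_col (T : TMap D V) (θ : D → ℤ) (E : Env D V) (g : Gam) :
    T.enc θ E .col g = E.c (T.lf (T.act g E.r)) := rfl

open Classical in
theorem enc_past (T : TMap D V) (θ : D → ℤ) (E : Env D V) (g : Gam) :
    T.enc θ E .past g = true ↔ T.act g E.r ∈ E.P := decide_eq_true_iff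

open Classical in
theorem enc_fut (T : TMap D V) (θ : D → ℤ) (E : Env D V) (g : Gam) :
    T.enc θ E .fut g = true ↔ T.act g E.r ∈ E.F := decide_eq_true_iff

open Classical in
theorem enc_eq (T : TMap D V) (θ : D → ℤ) (E : Env D V) (g : Gam) :
    T.enc θ E .eq g = true ↔ T.act g E.r = E.r := decide_eq_true_iff

open Classical in
theorem enc_beta (T : TMap D V) (θ : D → ℤ) (E : Env D V) (m : ℕ) (g : Gam) :
    T.enc θ E (.beta m) g = true ↔ T.lf (T.act g E.r) ∈ E.B m := decide_eq_true_iff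

theorem enc_th (T : TMap D V) (θ : D → ℤ) (E : Env D V) (z : ℤ) (g : Gam) :
    T.enc θ E (.th z) g = true ↔ θ (T.act g E.r) = z := decide_eq_true_iff

theorem flipE_pos {T : TMap D V} {E : Env D V} {S : Set V} {v : V} (h : v ∈ S ∧ v ∉ T.vP E) :
    (T.flipE S E).c v = !(E.c v) := if_pos h

theorem flipE_neg {T : TMap D V} {E : Env D V} {S : Set V} {v : V} (h : ¬ (v ∈ S ∧ v ∉ T.vP E)) :
    (T.flipE S E).c v = E.c v := if_neg h

theorem flp_pos {Δ : ℕ} {S : Finset Gam} {X : Cod} {h : Gam}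
    (hh : (∃ g ∈ S, sameV Δ X g h = true) ∧ inVP Δ X h = false) :
    FlP Δ S X .col h = !(X .col h) := if_pos hh

theorem flp_neg {Δ : ℕ} {S : Finset Gam} {X : Cod} {h : Gam}
    (hh : ¬ ((∃ g ∈ S, sameV Δ X g h = true) ∧ inVP Δ X h = false)) :
    FlP Δ S X .col h = X .col h := if_neg hh

theorem flt_pos {Δ : ℕ} {X : Cod} {h : Gam} (hh : inVP Δ X h = false) :
    FlT Δ X .col h = !(X .col h) := if_pos hh

theorem flt_neg {Δ : ℕ} {X : Cod} {h : Gam} (hh : ¬ inVP Δ X h = false) :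
    FlT Δ X .col h = X .col h := if_neg hh

/-! ### iteration of `lam` -/

theorem act_L_pow_mul (T : TMap D V) (n : ℕ) (g : Gam) (d : D) :
    T.act (L ^ n * g) d = (T.lam ^ n) (T.act g d) := by
  rw [T.act_mul_apply, map_pow, T.act_L]

theorem lf_lam_pow (T : TMap D V) (n : ℕ) (d : D) : T.lf ((T.lam ^ n) d) = T.lf d := by
  induction n with
  | zero => rfl
  | succ n ih => rw [pow_succ', Equiv.Perm.mul_apply, T.lf_lam, ih]

theorem cyc_deg (T : TMap D V) {Δ : ℕ} (hΔ : T.Deg Δ) {d d' : D} (h : T.lf d = T.lf d') :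
    ∃ n : ℕ, n < Δ ∧ (T.lam ^ n) d = d' := by
  classical
  have hex := T.cyc d d' h
  refine ⟨Nat.find hex, ?_, Nat.find_spec hex⟩
  have hn := Nat.find_spec hex
  have hmin := fun m hm => Nat.find_min (m := m) hex hm
  revert hn hmin
  generalize Nat.find hex = n
  intro hn hmin
  have hinj : Set.InjOn (fun i : ℕ => (T.lam ^ i) d) (Finset.range (n + 1) : Finset ℕ) := by
    have key : ∀ i j : ℕ, i < j → j ≤ n → (T.lam ^ i) d ≠ (T.lam ^ j) d := by
      intro i j hij hj he
      apply hmin (n - j + i) (by omega)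
      rw [pow_add, Equiv.Perm.mul_apply, he, ← Equiv.Perm.mul_apply, ← pow_add,
        Nat.sub_add_cancel hj]
      exact hn
    intro i hi j hj hij
    simp only [Finset.coe_range, Set.mem_Iio] at hi hj
    rcases lt_trichotomy i j with h1 | h1 | h1
    · exact absurd hij (key i j h1 (by omega))
    · exact h1
    · exact absurd hij.symm (key j i h1 (by omega))
  have hsub : (Finset.range (n + 1)).image (fun i : ℕ => (T.lam ^ i) d) ⊆ T.star (T.lf d) := by
    intro e he
    rw [Finset.mem_image] at he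
    obtain ⟨i, _, rfl⟩ := he
    rw [T.mem_star, lf_lam_pow]
  have hcard := Finset.card_le_card hsub
  rw [Finset.card_image_of_injOn hinj, Finset.card_range] at hcard
  have := hΔ (T.lf d)
  omega

theorem sameV_iff (T : TMap D V) (θ : D → ℤ) (E : Env D V) {Δ : ℕ} (hΔ : T.Deg Δ) (g h : Gam) :
    sameV Δ (T.enc θ E) g h = true ↔ T.lf (T.act g E.r) = T.lf (T.act h E.r) := by
  unfold sameV
  rw [List.any_eq_true]
  constructor
  · rintro ⟨n, _, hn⟩
    rw [enc_eq, mul_assoc, T.act_mul_apply, T.act_inv_apply,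
      act_L_pow_mul] at hn
    rw [← hn, lf_lam_pow]
  · intro he
    obtain ⟨n, hn, hn2⟩ := cyc_deg T hΔ he.symm
    refine ⟨n, by rw [List.mem_range]; omega, ?_⟩
    rw [enc_eq, mul_assoc, T.act_mul_apply, T.act_inv_apply, act_L_pow_mul]
    exact hn2

theorem inVP_iff (T : TMap D V) (θ : D → ℤ) (E : Env D V) {Δ : ℕ} (hΔ : T.Deg Δ) (g : Gam) :
    inVP Δ (T.enc θ E) g = true ↔ T.lf (T.act g E.r) ∈ T.vP E := by
  unfold inVP
  rw [List.any_eq_true]
  constructor
  · rintro ⟨n, _, hn⟩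
    rw [Bool.or_eq_true, enc_past, enc_past, mul_assoc,
      T.act_A_mul, act_L_pow_mul] at hn
    rcases hn with hn | hn
    · exact ⟨_, hn, Or.inl (lf_lam_pow T n _)⟩
    · refine ⟨_, hn, Or.inr ?_⟩
      rw [T.rt_al]
      exact lf_lam_pow T n _
  · rintro ⟨e, he, h1 | h1⟩
    · obtain ⟨n, hn, hn2⟩ := cyc_deg T hΔ h1.symm
      refine ⟨n, by rw [List.mem_range]; omega, ?_⟩
      rw [Bool.or_eq_true, enc_past, act_L_pow_mul, hn2]
      exact Or.inl he
    · have h2 : T.lf (T.act g E.r) = T.lf (T.al e) := by rw [T.lf_al, h1]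
      obtain ⟨n, hn, hn2⟩ := cyc_deg T hΔ h2
      refine ⟨n, by rw [List.mem_range]; omega, ?_⟩
      rw [Bool.or_eq_true, enc_past, enc_past, mul_assoc,
        T.act_A_mul, act_L_pow_mul, hn2, T.al_al]
      exact Or.inr he

theorem act_stepW (T : TMap D V) (θ : D → ℤ) (E : Env D V) :
    T.act (stepW (T.enc θ E)) E.r = T.nx E.c E.r := by
  unfold stepW TMap.nx
  have h : T.enc θ E .col (A * L) = E.c (T.tau E.r) := by
    rw [enc_col, T.act_A_mul, T.act_L]
    rfl
  rw [h]
  by_cases hc : E.c (T.tau E.r) = true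
  · rw [if_pos hc, if_pos hc, mul_assoc, T.act_A_mul, T.act_L_inv_mul, T.act_A, T.rho_apply]
  · rw [if_neg hc, if_neg hc, T.act_L]

theorem mi_enc (T : TMap D V) (θ : D → ℤ) (E : Env D V) :
    Mi (T.enc θ E) = T.mirror.enc θ E.mir := by
  funext k g
  unfold Mi
  rw [Bool.eq_iff_iff]
  cases k with
  | col => rw [show Kd.swap .col = .col from rfl, enc_col, enc_col, T.mirror_act]; rfl
  | past => rw [show Kd.swap .past = .fut from rfl, enc_fut, enc_past, T.mirror_act]; rfl
  | fut => rw [show Kd.swap .fut = .past from rfl, enc_past, enc_fut, T.mirror_act]; rfl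
  | eq => rw [show Kd.swap .eq = .eq from rfl, enc_eq, enc_eq, T.mirror_act]; rfl
  | beta m => rw [show Kd.swap (.beta m) = .beta m from rfl, enc_beta, enc_beta, T.mirror_act]; rfl
  | th z => rw [show Kd.swap (.th z) = .th z from rfl, enc_th, enc_th, T.mirror_act]; rfl

theorem sh_enc (T : TMap D V) (θ : D → ℤ) (E : Env D V) :
    Sh (T.enc θ E) = T.enc θ (T.shE E) := by
  have hr : (T.shE E).r = T.nx E.c E.r := rfl
  have key : ∀ g : Gam, T.act (g * stepW (T.enc θ E)) E.r = T.act g (T.shE E).r := by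
    intro g
    rw [T.act_mul_apply, act_stepW, hr]
  have key2 : ∀ g : Gam, (T.act ((stepW (T.enc θ E))⁻¹ * g * stepW (T.enc θ E)) E.r = E.r) ↔
      T.act g (T.shE E).r = (T.shE E).r := by
    intro g
    rw [mul_assoc, T.act_mul_apply, T.act_inv_apply, key, act_stepW, hr]
  funext k g
  cases k with
  | col =>
    change T.enc θ E .col (g * stepW (T.enc θ E)) = _
    rw [enc_col, enc_col, key]
    rfl
  | past =>
    change (T.enc θ E .past (g * stepW (T.enc θ E)) ||
      T.enc θ E .eq ((stepW (T.enc θ E))⁻¹ * g * stepW (T.enc θ E))) = _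
    rw [Bool.eq_iff_iff, Bool.or_eq_true, enc_past, enc_past, enc_eq, key, key2]
    change _ ↔ _ ∈ insert (T.nx E.c E.r) E.P
    rw [Set.mem_insert_iff, hr]
    tauto
  | fut =>
    change (T.enc θ E .fut (g * stepW (T.enc θ E)) &&
      !(T.enc θ E .eq (g * stepW (T.enc θ E)))) = _
    rw [Bool.eq_iff_iff, Bool.and_eq_true, Bool.not_eq_true', ← Bool.not_eq_true, enc_fut, enc_fut,
      enc_eq, key]
    change _ ↔ _ ∈ E.F \ {E.r}
    rw [Set.mem_sdiff, Set.mem_singleton_iff]
  | eq =>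
    change T.enc θ E .eq ((stepW (T.enc θ E))⁻¹ * g * stepW (T.enc θ E)) = _
    rw [Bool.eq_iff_iff, enc_eq, enc_eq, key2]
  | beta m =>
    change T.enc θ E (.beta m) (g * stepW (T.enc θ E)) = _
    rw [Bool.eq_iff_iff, enc_beta, enc_beta, key]
    rfl
  | th z =>
    change T.enc θ E (.th z) (g * stepW (T.enc θ E)) = _
    rw [Bool.eq_iff_iff, enc_th, enc_th, key]

theorem prp_enc (T : TMap D V) (θ : D → ℤ) (E : Env D V) :
    PrP (T.enc θ E) = T.enc θ { E with F := ∅, B := fun _ => ∅ } := by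
  funext k g
  cases k with
  | col => rfl
  | past => rfl
  | fut =>
    change false = _
    rw [Bool.eq_iff_iff, enc_fut]
    simp
  | eq => rfl
  | beta m =>
    change false = _
    rw [Bool.eq_iff_iff, enc_beta]
    simp
  | th z => rfl

theorem flp_enc (T : TMap D V) (θ : D → ℤ) (E : Env D V) {Δ : ℕ} (S : Finset Gam)
    (hΔ : T.Deg Δ) :
    FlP Δ S (T.enc θ E) = T.enc θ (T.flipE {v | ∃ g ∈ S, T.lf (T.act g E.r) = v} E) := by
  funext k g
  cases k with
  | col =>
    rw [enc_col]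
    change _ = (T.flipE {v | ∃ g ∈ S, T.lf (T.act g E.r) = v} E).c (T.lf (T.act g E.r))
    have h1 : ((∃ a ∈ S, sameV Δ (T.enc θ E) a g = true) ∧ inVP Δ (T.enc θ E) g = false) ↔
        (T.lf (T.act g E.r) ∈ {v | ∃ g ∈ S, T.lf (T.act g E.r) = v} ∧
        T.lf (T.act g E.r) ∉ T.vP E) := by
      rw [← inVP_iff T θ E hΔ g, Bool.not_eq_true]
      refine and_congr_left' ?_
      rw [Set.mem_ofPred_eq]
      refine exists_congr (fun a => and_congr_right' ?_)
      exact sameV_iff T θ E hΔ a g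
    by_cases h2 : (T.lf (T.act g E.r) ∈ {v | ∃ g ∈ S, T.lf (T.act g E.r) = v} ∧
        T.lf (T.act g E.r) ∉ T.vP E)
    · rw [flipE_pos h2, flp_pos (h1.mpr h2), enc_col]
    · rw [flipE_neg h2, flp_neg (fun h => h2 (h1.mp h)), enc_col]
  | past => rfl
  | fut => rfl
  | eq => rfl
  | beta m => rfl
  | th z => rfl

theorem flt_enc (T : TMap D V) (θ : D → ℤ) (E : Env D V) {Δ : ℕ} (hΔ : T.Deg Δ) :
    FlT Δ (T.enc θ E) = T.enc θ (T.flipE Set.univ E) := by
  funext k g
  cases k with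
  | col =>
    rw [enc_col]
    change _ = (T.flipE Set.univ E).c (T.lf (T.act g E.r))
    have h1 : inVP Δ (T.enc θ E) g = false ↔
        (T.lf (T.act g E.r) ∈ Set.univ ∧ T.lf (T.act g E.r) ∉ T.vP E) := by
      rw [← inVP_iff T θ E hΔ g, Bool.not_eq_true]
      exact ⟨fun h => ⟨Set.mem_univ _, h⟩, fun h => h.2⟩
    by_cases h2 : (T.lf (T.act g E.r) ∈ Set.univ ∧ T.lf (T.act g E.r) ∉ T.vP E)
    · rw [flipE_pos h2, flt_pos (h1.mpr h2), enc_col]
    · rw [flipE_neg h2, flt_neg (fun h => h2 (h1.mp h)), enc_col]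
  | past => rfl
  | fut => rfl
  | eq => rfl
  | beta m => rfl
  | th z => rfl

theorem th0_enc (T : TMap D V) (θ : D → ℤ) (E : Env D V) {K : ℕ} (hK : ∀ d, |θ d| ≤ (K : ℤ)) :
    th0 K (T.enc θ E) = θ E.r := by
  classical
  unfold th0
  have h : ∀ z : ℤ, (if T.enc θ E (.th z) 1 = true then (z : ℝ) else 0)
      = if θ E.r = z then (z : ℝ) else 0 := by
    intro z
    have e : (T.enc θ E (.th z) 1 = true) ↔ θ E.r = z := by
      rw [enc_th, T.act_one_apply]
    by_cases hz : θ E.r = z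
    · rw [if_pos hz, if_pos (e.mpr hz)]
    · rw [if_neg hz, if_neg (fun h => hz (e.mp h))]
  rw [Finset.sum_congr rfl (fun z _ => h z)]
  rw [Finset.sum_ite_eq, if_pos]
  rw [Finset.mem_Icc]
  have := abs_le.mp (hK E.r)
  exact this

/-- module CODE -/
theorem code : CodeStmt := by
  intro D V T θ E
  exact ⟨mi_enc T θ E, fun _ => sh_enc T θ E, prp_enc T θ E, fun Δ S hΔ => flp_enc T θ E S hΔ,
    fun Δ hΔ => flt_enc T θ E hΔ, fun K hK => th0_enc T θ E hK⟩

end Pool.Agent.BS.H91
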