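import Pool.Agent.Helper47_BS.Stmts

/-! # BS squad: module CONT (continuity of the maps on codes) -/

set_option autoImplicit false

namespace Pool.Agent.BS.H91

open Function Filter MeasureTheory Topology
open Pool.Agent.BS

theorem cont_if {β : Type*} [TopologicalSpace β] {P : Cod → Prop} [DecidablePred P]
    (hP : IsClopen {X | P X}) {f g : Cod → β} (hf : Continuous f) (hg : Continuous g) :
    Continuous (fun X => if P X then f X else g X) := by
  refine Continuous.if ?_ hf hg
  intro a ha
  rw [hP.frontier_eq] at ha
  exact ha.elim

theorem clopen_of_cont {b : Cod → Bool} (hb : Continuous b) (v : Bool) :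
    IsClopen {X | b X = v} := by
  have h := (isClopen_discrete ({v} : Set Bool)).preimage hb
  exact h

theorem clopen_bit (k : Kd) (g : Gam) (v : Bool) : IsClopen {X : Cod | X k g = v} :=
  clopen_of_cont (continuous_bit k g) v

theorem cont_not {b : Cod → Bool} (hb : Continuous b) : Continuous (fun X => !(b X)) :=
  (continuous_of_discreteTopology (f := fun x : Bool => !x)).comp hb

theorem cont_or {b c : Cod → Bool} (hb : Continuous b) (hc : Continuous c) :
    Continuous (fun X => b X || c X) :=
  (continuous_of_discreteTopology (f := fun x : Bool × Bool => x.1 || x.2)).comp (hb.prodMk hc)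

theorem cont_and {b c : Cod → Bool} (hb : Continuous b) (hc : Continuous c) :
    Continuous (fun X => b X && c X) :=
  (continuous_of_discreteTopology (f := fun x : Bool × Bool => x.1 && x.2)).comp (hb.prodMk hc)

theorem cont_any {α : Type*} (l : List α) (b : α → Cod → Bool) (hb : ∀ a, Continuous (b a)) :
    Continuous (fun X => l.any (fun a => b a X)) := by
  induction l with
  | nil => exact continuous_const
  | cons a l ih =>
    simp only [List.any_cons]
    exact cont_or (hb a) ih

theorem cont_step (k : Kd) (F : Gam → Gam) :
    Continuous (fun X : Cod => X k (F (stepW X))) := by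
  have h : (fun X : Cod => X k (F (stepW X)))
      = fun X : Cod => if X .col (A * L) = true then X k (F (A * L⁻¹ * A)) else X k (F L) := by
    funext X
    unfold stepW
    split_ifs <;> rfl
  rw [h]
  exact cont_if (clopen_bit _ _ _) (continuous_bit _ _) (continuous_bit _ _)

theorem cont_cod {f : Cod → Cod} (h : ∀ k g, Continuous (fun X => f X k g)) : Continuous f :=
  continuous_pi (fun k => continuous_pi (fun g => h k g))

theorem cont_Mi : Continuous Mi := cont_cod (fun k g => continuous_bit _ _)

theorem cont_Sh : Continuous Sh := by
  refine cont_cod ?_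
  intro k g
  cases k with
  | col => exact cont_step .col (fun w => g * w)
  | past => exact cont_or (cont_step .past (fun w => g * w)) (cont_step .eq (fun w => w⁻¹ * g * w))
  | fut => exact cont_and (cont_step .fut (fun w => g * w)) (cont_not (cont_step .eq (fun w => g * w)))
  | eq => exact cont_step .eq (fun w => w⁻¹ * g * w)
  | beta m => exact cont_step (.beta m) (fun w => g * w)
  | th z => exact cont_step (.th z) (fun w => g * w)

theorem cont_Sb : Continuous Sb := cont_Mi.comp (cont_Sh.comp cont_Mi)

theorem cont_PrP : Continuous PrP := by
  refine cont_cod ?_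
  intro k g
  cases k with
  | col => exact continuous_bit _ _
  | past => exact continuous_bit _ _
  | fut => exact continuous_const
  | eq => exact continuous_bit _ _
  | beta m => exact continuous_const
  | th z => exact continuous_bit _ _

theorem cont_sameV (Δ : ℕ) (g h : Gam) : Continuous (fun X => sameV Δ X g h) :=
  cont_any _ _ (fun _ => continuous_bit _ _)

theorem cont_inVP (Δ : ℕ) (g : Gam) : Continuous (fun X => inVP Δ X g) :=
  cont_any _ _ (fun _ => cont_or (continuous_bit _ _) (continuous_bit _ _))

theorem cont_FlP (Δ : ℕ) (S : Finset Gam) : Continuous (FlP Δ S) := by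
  classical
  refine cont_cod ?_
  intro k h
  cases k with
  | col =>
    refine cont_if ?_ (cont_not (continuous_bit _ _)) (continuous_bit _ _)
    have h1 : IsClopen {X : Cod | ∃ g ∈ S, sameV Δ X g h = true} := by
      have e : {X : Cod | ∃ g ∈ S, sameV Δ X g h = true}
          = ⋃ g ∈ S, {X : Cod | sameV Δ X g h = true} := by
        ext X
        simp
      rw [e]
      exact S.finite_toSet.isClopen_biUnion (fun g _ => clopen_of_cont (cont_sameV Δ g h) true)
    exact h1.inter (clopen_of_cont (cont_inVP Δ h) false)
  | past => exact continuous_bit _ _
  | fut => exact continuous_bit _ _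
  | eq => exact continuous_bit _ _
  | beta m => exact continuous_bit _ _
  | th z => exact continuous_bit _ _

theorem cont_FlT (Δ : ℕ) : Continuous (FlT Δ) := by
  refine cont_cod ?_
  intro k h
  cases k with
  | col =>
    exact cont_if (clopen_of_cont (cont_inVP Δ h) false) (cont_not (continuous_bit _ _))
      (continuous_bit _ _)
  | past => exact continuous_bit _ _
  | fut => exact continuous_bit _ _
  | eq => exact continuous_bit _ _
  | beta m => exact continuous_bit _ _
  | th z => exact continuous_bit _ _

theorem cont_th0 (K : ℕ) : Continuous (th0 K) := by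
  unfold th0
  refine continuous_finsetSum _ ?_
  intro z _
  exact cont_if (clopen_bit _ _ _) continuous_const continuous_const

/-- module CONT -/
theorem cont : ContStmt :=
  ⟨cont_Mi, cont_Sh, cont_Sb, cont_PrP, fun Δ S => cont_FlP Δ S, fun Δ => cont_FlT Δ,
    fun K => cont_th0 K⟩

end Pool.Agent.BS.H91
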