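import Pool.Agent.Helper91_BS.Typm
import Pool.Agent.Helper91_BS.At

/-! # BS squad: module TYPR (typical codes versus typical environments) -/

set_option autoImplicit false

namespace Pool.Agent.BS.H91

open Function Filter MeasureTheory Topology
open Pool.Agent.BS

variable {D V : Type}

theorem act_wf {T : TMap D V} (θ : D → ℤ) {E : Env D V} (n : ℕ) :
    T.act (wf (T.enc θ E) n) E.r = (T.nx E.c)^[n] E.r := by
  induction n with
  | zero => exact T.act_one_apply _
  | succ n ih =>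
    rw [Function.iterate_succ_apply', ← ih]
    change T.act ((if (T.enc θ E) .col (A * L * wf (T.enc θ E) n) = true then A * L⁻¹ * A else L) *
      wf (T.enc θ E) n) E.r = _
    have h : T.enc θ E .col (A * L * wf (T.enc θ E) n)
        = E.c (T.tau (T.act (wf (T.enc θ E) n) E.r)) := by
      rw [enc_col, mul_assoc, T.act_A_mul, T.act_L_mul]
      rfl
    rw [h, T.act_mul_apply]
    unfold TMap.nx
    by_cases hc : E.c (T.tau (T.act (wf (T.enc θ E) n) E.r)) = true
    · rw [if_pos hc, if_pos hc, mul_assoc, T.act_A_mul, T.act_L_inv_mul, T.act_A, T.rho_apply]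
    · rw [if_neg hc, if_neg hc, T.act_L]

theorem act_wb {T : TMap D V} (θ : D → ℤ) {E : Env D V} (n : ℕ) :
    T.act (wb (T.enc θ E) n) E.r = (T.pv E.c)^[n] E.r := by
  induction n with
  | zero => exact T.act_one_apply _
  | succ n ih =>
    rw [Function.iterate_succ_apply', ← ih]
    change T.act ((if (T.enc θ E) .col (A * L⁻¹ * wb (T.enc θ E) n) = true then A * L * A
      else L⁻¹) * wb (T.enc θ E) n) E.r = _
    have h : T.enc θ E .col (A * L⁻¹ * wb (T.enc θ E) n)
        = E.c (T.rt (T.lam.symm (T.act (wb (T.enc θ E) n) E.r))) := by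
      rw [enc_col, mul_assoc, T.act_A_mul, T.act_L_inv_mul]
      rfl
    rw [h, T.act_mul_apply]
    unfold TMap.pv
    by_cases hc : E.c (T.rt (T.lam.symm (T.act (wb (T.enc θ E) n) E.r))) = true
    · rw [if_pos hc, if_pos hc, mul_assoc, T.act_A_mul, T.act_L_mul, T.act_A, T.rho_symm_apply]
    · rw [if_neg hc, if_neg hc]
      have h2 := T.act_L_inv_mul 1 (T.act (wb (T.enc θ E) n) E.r)
      rw [mul_one, T.act_one_apply] at h2
      exact h2

theorem act_wz {T : TMap D V} (θ : D → ℤ) {E : Env D V} (i : ℤ) :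
    T.act (wz (T.enc θ E) i) E.r = T.st E.c E.r i := by
  cases i with
  | ofNat n => exact act_wf θ n
  | negSucc n => exact act_wb θ (n + 1)

theorem enc_eq_false (T : TMap D V) (θ : D → ℤ) (E : Env D V) (g h : Gam) :
    T.enc θ E .eq (g⁻¹ * h) = false ↔ T.act h E.r ≠ T.act g E.r := by
  rw [← Bool.not_eq_true, enc_eq, T.act_mul_apply, T.act_inv_apply]

theorem cOld_iff (T : TMap D V) (θ : D → ℤ) (E : Env D V) (g : Gam) :
    cOld (T.enc θ E) g ↔ T.act g E.r ∈ E.P ∧ ∀ j : ℤ, T.st E.c E.r j ≠ T.act g E.r := by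
  unfold cOld
  rw [enc_past]
  refine and_congr_right' (forall_congr' (fun j => ?_))
  rw [enc_eq_false, act_wz]

theorem cSame_iff (T : TMap D V) (θ : D → ℤ) (E : Env D V) (g h : Gam) :
    cSame (T.enc θ E) g h ↔ T.lf (T.act g E.r) = T.lf (T.act h E.r) := by
  unfold cSame
  constructor
  · rintro ⟨n, hn⟩
    rw [enc_eq, mul_assoc, T.act_mul_apply, T.act_inv_apply, act_L_pow_mul] at hn
    rw [← hn, lf_lam_pow]
  · intro he
    obtain ⟨n, hn⟩ := T.cyc _ _ he.symm
    refine ⟨n, ?_⟩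
    rw [enc_eq, mul_assoc, T.act_mul_apply, T.act_inv_apply, act_L_pow_mul]
    exact hn

theorem cLO_iff (T : TMap D V) (θ : D → ℤ) (E : Env D V) (i : ℤ) :
    cLO (T.enc θ E) i ↔
      ∃ e ∈ E.P, (∀ j : ℤ, T.st E.c E.r j ≠ e) ∧ T.lf e = T.lf (T.st E.c E.r i) := by
  unfold cLO
  constructor
  · rintro ⟨g, h1, h2⟩
    rw [cOld_iff] at h1
    rw [cSame_iff, act_wz] at h2
    exact ⟨_, h1.1, h1.2, h2⟩
  · rintro ⟨e, he, h1, h2⟩
    obtain ⟨g, rfl⟩ := T.act_conn E.r e
    refine ⟨g, ?_, ?_⟩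
    · rw [cOld_iff]
      exact ⟨he, h1⟩
    · rw [cSame_iff, act_wz]
      exact h2

theorem cRO_iff (T : TMap D V) (θ : D → ℤ) (E : Env D V) (i : ℤ) :
    cRO (T.enc θ E) i ↔
      ∃ e ∈ E.P, (∀ j : ℤ, T.st E.c E.r j ≠ e) ∧ T.rt e = T.rt (T.st E.c E.r i) := by
  unfold cRO
  constructor
  · rintro ⟨g, h1, h2⟩
    rw [cOld_iff] at h1
    rw [cSame_iff, T.act_A_mul, T.act_A_mul, act_wz] at h2
    exact ⟨_, h1.1, h1.2, h2⟩
  · rintro ⟨e, he, h1, h2⟩
    obtain ⟨g, rfl⟩ := T.act_conn E.r e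
    refine ⟨g, ?_, ?_⟩
    · rw [cOld_iff]
      exact ⟨he, h1⟩
    · rw [cSame_iff, T.act_A_mul, T.act_A_mul, act_wz]
      exact h2

theorem thv_enc (T : TMap D V) (θ : D → ℤ) (E : Env D V) {K : ℕ}
    (hK : ∀ d, |θ d| ≤ (K : ℤ)) (g : Gam) :
    thv K (T.enc θ E) g = θ (T.act g E.r) := by
  classical
  unfold thv
  have h : ∀ z : ℤ, (if T.enc θ E (.th z) g = true then (z : ℝ) else 0)
      = if θ (T.act g E.r) = z then (z : ℝ) else 0 := by
    intro z
    have e : (T.enc θ E (.th z) g = true) ↔ θ (T.act g E.r) = z := by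
      rw [enc_th]
    by_cases hz : θ (T.act g E.r) = z
    · rw [if_pos hz, if_pos (e.mpr hz)]
    · rw [if_neg hz, if_neg (fun h => hz (e.mp h))]
  rw [Finset.sum_congr rfl (fun z _ => h z)]
  rw [Finset.sum_ite_eq, if_pos]
  rw [Finset.mem_Icc]
  exact abs_le.mp (hK _)

theorem typE_iff (T : TMap D V) (θ : D → ℤ) (E : Env D V) : T.TypE θ E ↔
    (T.State E.c E.r) ∧ (Injective (T.st E.c E.r)) ∧
    (∀ i : ℤ, T.st E.c E.r i ∈ E.P ↔ i ≤ 0) ∧
    (∃ a : ℝ, T.FAvg θ E.c E.r a ∧ T.BAvg θ E.c E.r a) ∧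
    ((∀ i : ℤ, i ≤ 0 → ∀ e ∈ E.P, (∀ j : ℤ, T.st E.c E.r j ≠ e) →
      T.lf e ≠ T.lf (T.st E.c E.r i)) → T.NoL E.P E.c E.r) ∧
    ((∀ i : ℤ, i ≤ 0 → ∀ e ∈ E.P, (∀ j : ℤ, T.st E.c E.r j ≠ e) →
      T.rt e ≠ T.rt (T.st E.c E.r i)) → T.NoR E.P E.c E.r) := by
  constructor
  · intro h
    exact ⟨h.state, h.inj, h.memP, h.avg, h.lo, h.ro⟩
  · rintro ⟨h1, h2, h3, h4, h5, h6⟩
    exact ⟨h1, h2, h3, h4, h5, h6⟩

/-- typical codes are the codes of typical environments -/
theorem cTyp_enc (T : TMap D V) (θ : D → ℤ) (E : Env D V) {K : ℕ}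
    (hK : ∀ d, |θ d| ≤ (K : ℤ)) : cTyp K (T.enc θ E) ↔ T.TypE θ E := by
  rw [cTyp_iff, typE_iff]
  refine and_congr ?_ (and_congr ?_ (and_congr ?_ (and_congr ?_ (and_congr ?_ ?_))))
  · rw [enc_col, enc_col, T.act_one_apply, T.act_A]
    exact Iff.rfl
  · constructor
    · intro h i j hij
      by_contra hne
      have h2 := h i j hne
      rw [enc_eq_false, act_wz, act_wz] at h2
      exact h2 hij.symm
    · intro h i j hne
      rw [enc_eq_false, act_wz, act_wz]
      exact fun h2 => hne (h h2).symm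
  · refine forall_congr' (fun i => ?_)
    rw [enc_past, act_wz]
  · refine exists_congr (fun a => ?_)
    unfold TMap.FAvg TMap.BAvg
    simp only [thv_enc T θ E hK, act_wz]
  · refine imp_congr ?_ ?_
    · refine forall_congr' (fun i => imp_congr_right (fun _ => ?_))
      rw [cLO_iff]
      push Not
      exact Iff.rfl
    · unfold TMap.NoL
      constructor
      · intro h e he h1 i h2
        refine h i ?_
        rw [cLO_iff]
        exact ⟨e, he, h1, h2⟩
      · intro h i h2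
        rw [cLO_iff] at h2
        obtain ⟨e, he, h1, h2⟩ := h2
        exact h e he h1 i h2
  · refine imp_congr ?_ ?_
    · refine forall_congr' (fun i => imp_congr_right (fun _ => ?_))
      rw [cRO_iff]
      push Not
      exact Iff.rfl
    · unfold TMap.NoR
      constructor
      · intro h e he h1 i h2
        refine h i ?_
        rw [cRO_iff]
        exact ⟨e, he, h1, h2⟩
      · intro h i h2
        rw [cRO_iff] at h2
        obtain ⟨e, he, h1, h2⟩ := h2
        exact h e he h1 i h2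

/-- module TYPR -/
theorem typr : TypRepStmt := by
  intro Δ K D V T θ E X hX _
  obtain rfl := hX.eq
  exact ⟨act_wz θ, cLO_iff T θ E, cRO_iff T θ E, cTyp_enc T θ E hX.flow.bdd⟩

end Pool.Agent.BS.H91
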