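import Pool.Agent.Helper91_BS.Cont

/-! # BS squad: module TYPM (measurability of typical codes) -/

set_option autoImplicit false

namespace Pool.Agent.BS.H91

open Function Filter MeasureTheory Topology
open Pool.Agent.BS

theorem meas_bit (k : Kd) (g : Gam) (v : Bool) : Measurable (fun X : Cod => X k g = v) :=
  measurableSet_setOfPred.mp (clopen_bit k g v).1.measurableSet

/-- evaluation of a family of measurable events at a measurable word -/
theorem meas_comp {w : Cod → Gam} (hw : ∀ g, Measurable (fun X => w X = g))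
    {P : Gam → Cod → Prop} (hP : ∀ g, Measurable (P g)) : Measurable (fun X => P (w X) X) := by
  have h : (fun X => P (w X) X) = fun X => ∃ g, w X = g ∧ P g X := by
    funext X
    simp
  rw [h]
  exact Measurable.exists (fun g => (hw g).and (hP g))

theorem meas_const (p : Prop) : Measurable (fun _ : Cod => p) := measurable_const

theorem meas_wf (n : ℕ) : ∀ g : Gam, Measurable (fun X : Cod => wf X n = g) := by
  induction n with
  | zero => intro g; exact meas_const ((1 : Gam) = g)
  | succ n ih =>
    intro g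
    have h := meas_comp ih (P := fun h X =>
      (X .col (A * L * h) = true ∧ A * L⁻¹ * A * h = g) ∨ (X .col (A * L * h) = false ∧ L * h = g))
      (fun h => ((meas_bit _ _ _).and (meas_const _)).or ((meas_bit _ _ _).and (meas_const _)))
    convert h using 1
    funext X
    apply propext
    change (if X .col (A * L * wf X n) = true then A * L⁻¹ * A else L) * wf X n = g ↔ _
    by_cases hc : X .col (A * L * wf X n) = true
    · rw [if_pos hc]
      simp [hc]
    · rw [if_neg hc]
      simp [hc]

theorem meas_wb (n : ℕ) : ∀ g : Gam, Measurable (fun X : Cod => wb X n = g) := by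
  induction n with
  | zero => intro g; exact meas_const ((1 : Gam) = g)
  | succ n ih =>
    intro g
    have h := meas_comp ih (P := fun h X =>
      (X .col (A * L⁻¹ * h) = true ∧ A * L * A * h = g) ∨
        (X .col (A * L⁻¹ * h) = false ∧ L⁻¹ * h = g))
      (fun h => ((meas_bit _ _ _).and (meas_const _)).or ((meas_bit _ _ _).and (meas_const _)))
    convert h using 1
    funext X
    apply propext
    change (if X .col (A * L⁻¹ * wb X n) = true then A * L * A else L⁻¹) * wb X n = g ↔ _
    by_cases hc : X .col (A * L⁻¹ * wb X n) = true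
    · rw [if_pos hc]
      simp [hc]
    · rw [if_neg hc]
      simp [hc]

theorem meas_wz (i : ℤ) (g : Gam) : Measurable (fun X : Cod => wz X i = g) := by
  cases i with
  | ofNat n => exact meas_wf n g
  | negSucc n => exact meas_wb (n + 1) g

theorem meas_cOld (g : Gam) : Measurable (fun X : Cod => cOld X g) := by
  unfold cOld
  exact (meas_bit _ _ _).and (Measurable.forall (fun j =>
    meas_comp (meas_wz j) (P := fun h X => X .eq (g⁻¹ * h) = false) (fun h => meas_bit _ _ _)))

theorem meas_cSame (g h : Gam) : Measurable (fun X : Cod => cSame X g h) := by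
  unfold cSame
  exact Measurable.exists (fun n => meas_bit _ _ _)

theorem meas_cLO (i : ℤ) : Measurable (fun X : Cod => cLO X i) := by
  unfold cLO
  exact Measurable.exists (fun g => (meas_cOld g).and
    (meas_comp (meas_wz i) (P := fun h X => cSame X g h) (fun h => meas_cSame _ _)))

theorem meas_cRO (i : ℤ) : Measurable (fun X : Cod => cRO X i) := by
  unfold cRO
  exact Measurable.exists (fun g => (meas_cOld g).and
    (meas_comp (meas_wz i) (P := fun h X => cSame X (A * g) (A * h)) (fun h => meas_cSame _ _)))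

theorem meas_thv (K : ℕ) (i : ℤ) : Measurable (fun X : Cod => thv K X (wz X i)) := by
  unfold thv
  refine Finset.measurable_fun_sum _ ?_
  intro z _
  refine Measurable.ite ?_ measurable_const measurable_const
  rw [measurableSet_setOfPred]
  exact meas_comp (meas_wz i) (P := fun h X => X (.th z) h = true) (fun h => meas_bit _ _ _)

theorem meas_avg {f g : ℕ → Cod → ℝ} (hf : ∀ n, Measurable (f n)) (hg : ∀ n, Measurable (g n)) :
    Measurable (fun X : Cod => ∃ a : ℝ, Tendsto (fun n => f n X) atTop (𝓝 a) ∧
      Tendsto (fun n => g n X) atTop (𝓝 a)) := by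
  have h : (fun X : Cod => ∃ a : ℝ, Tendsto (fun n => f n X) atTop (𝓝 a) ∧
      Tendsto (fun n => g n X) atTop (𝓝 a)) = fun X =>
      (∃ a : ℝ, Tendsto (fun n => f n X) atTop (𝓝 a)) ∧
        Tendsto (fun n => g n X - f n X) atTop (𝓝 0) := by
    funext X
    apply propext
    constructor
    · rintro ⟨a, h1, h2⟩
      refine ⟨⟨a, h1⟩, ?_⟩
      have h3 := h2.sub h1
      rw [sub_self] at h3
      exact h3
    · rintro ⟨⟨a, h1⟩, h2⟩
      refine ⟨a, h1, ?_⟩
      have h3 := h2.add h1
      rw [zero_add] at h3
      simpa using h3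
  rw [h]
  refine Measurable.and ?_ ?_
  · rw [← measurableSet_setOfPred]
    exact measurableSet_exists_tendsto hf
  · rw [← measurableSet_setOfPred]
    exact measurableSet_tendsto_fun (fun n => (hg n).sub (hf n)) measurable_const

theorem cTyp_iff (K : ℕ) (X : Cod) : cTyp K X ↔
    (X .col 1 = true ∧ X .col A = false) ∧
    (∀ i j : ℤ, i ≠ j → X .eq ((wz X i)⁻¹ * wz X j) = false) ∧
    (∀ i : ℤ, X .past (wz X i) = true ↔ i ≤ 0) ∧
    (∃ a : ℝ,
      Tendsto (fun n : ℕ => (∑ k ∈ Finset.range n, thv K X (wz X (k : ℤ))) / n) atTop (𝓝 a) ∧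
      Tendsto (fun n : ℕ => (∑ k ∈ Finset.range n, thv K X (wz X (-(k : ℤ)))) / n)
        atTop (𝓝 a)) ∧
    ((∀ i : ℤ, i ≤ 0 → ¬ cLO X i) → ∀ i : ℤ, ¬ cLO X i) ∧
    ((∀ i : ℤ, i ≤ 0 → ¬ cRO X i) → ∀ i : ℤ, ¬ cRO X i) := by
  constructor
  · intro h
    exact ⟨h.state, h.inj, h.memP, h.avg, h.lo, h.ro⟩
  · rintro ⟨h1, h2, h3, h4, h5, h6⟩
    exact ⟨h1, h2, h3, h4, h5, h6⟩

theorem meas_cTyp (K : ℕ) : Measurable (fun X : Cod => cTyp K X) := by
  have h : (fun X : Cod => cTyp K X) = _ := funext (fun X => propext (cTyp_iff K X))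
  rw [h]
  refine Measurable.and ?_ (Measurable.and ?_ (Measurable.and ?_ (Measurable.and ?_
    (Measurable.and ?_ ?_))))
  · exact (meas_bit _ _ _).and (meas_bit _ _ _)
  · refine Measurable.forall (fun i => Measurable.forall (fun j => Measurable.imp
      (meas_const _) ?_))
    exact meas_comp (meas_wz i) (P := fun g X => X .eq (g⁻¹ * wz X j) = false)
      (fun g => meas_comp (meas_wz j) (P := fun h X => X .eq (g⁻¹ * h) = false)
        (fun h => meas_bit _ _ _))
  · refine Measurable.forall (fun i => Measurable.iff ?_ (meas_const _))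
    exact meas_comp (meas_wz i) (P := fun g X => X .past g = true) (fun g => meas_bit _ _ _)
  · refine meas_avg (fun n => ?_) (fun n => ?_)
    · exact (Finset.measurable_fun_sum _ (fun k _ => meas_thv K _)).div_const _
    · exact (Finset.measurable_fun_sum _ (fun k _ => meas_thv K _)).div_const _
  · refine Measurable.imp ?_ ?_
    · exact Measurable.forall (fun i => Measurable.imp (meas_const _) (meas_cLO i).not)
    · exact Measurable.forall (fun i => (meas_cLO i).not)
  · refine Measurable.imp ?_ ?_
    · exact Measurable.forall (fun i => Measurable.imp (meas_const _) (meas_cRO i).not)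
    · exact Measurable.forall (fun i => (meas_cRO i).not)

theorem wf_PrP (X : Cod) (n : ℕ) : wf (PrP X) n = wf X n := by
  induction n with
  | zero => rfl
  | succ n ih =>
    change (if (PrP X) .col (A * L * wf (PrP X) n) = true then A * L⁻¹ * A else L) * wf (PrP X) n
      = (if X .col (A * L * wf X n) = true then A * L⁻¹ * A else L) * wf X n
    rw [ih]
    rfl

theorem wb_PrP (X : Cod) (n : ℕ) : wb (PrP X) n = wb X n := by
  induction n with
  | zero => rfl
  | succ n ih =>
    change (if (PrP X) .col (A * L⁻¹ * wb (PrP X) n) = true then A * L * A else L⁻¹) *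
      wb (PrP X) n
      = (if X .col (A * L⁻¹ * wb X n) = true then A * L * A else L⁻¹) * wb X n
    rw [ih]
    rfl

theorem wz_PrP (X : Cod) (i : ℤ) : wz (PrP X) i = wz X i := by
  cases i with
  | ofNat n => exact wf_PrP X n
  | negSucc n => exact wb_PrP X (n + 1)

theorem cOld_PrP (X : Cod) (g : Gam) : cOld (PrP X) g ↔ cOld X g := by
  unfold cOld
  simp only [wz_PrP]
  exact Iff.rfl

theorem cSame_PrP (X : Cod) (g h : Gam) : cSame (PrP X) g h ↔ cSame X g h := Iff.rfl

theorem cLO_PrP (X : Cod) (i : ℤ) : cLO (PrP X) i ↔ cLO X i := by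
  unfold cLO
  simp only [wz_PrP, cOld_PrP, cSame_PrP]

theorem cRO_PrP (X : Cod) (i : ℤ) : cRO (PrP X) i ↔ cRO X i := by
  unfold cRO
  simp only [wz_PrP, cOld_PrP, cSame_PrP]

theorem cTyp_PrP (K : ℕ) (X : Cod) : cTyp K (PrP X) ↔ cTyp K X := by
  rw [cTyp_iff, cTyp_iff]
  simp only [cLO_PrP, cRO_PrP, wz_PrP]
  exact Iff.rfl

/-- module TYPM -/
theorem typm : TypMeasStmt := by
  refine ⟨?_, ?_, ?_, ?_, cTyp_PrP⟩
  · intro K
    rw [measurableSet_setOfPred]
    exact meas_cTyp K
  · intro i
    rw [measurableSet_setOfPred]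
    exact meas_cLO i
  · intro i
    rw [measurableSet_setOfPred]
    exact meas_cRO i
  · intro i g
    rw [measurableSet_setOfPred]
    exact meas_wz i g

end Pool.Agent.BS.H91
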